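import Pool.Agent.W181.WH.Stm

/-! Project WH, part KKD: differentiation under the integral sign. -/

set_option autoImplicit false

namespace Pool.Agent.W191.WH.KKD

open MeasureTheory Pool.Agent.W181.WH Filter Topology

/-- the derivation part of `dX` -/
noncomputable def EE {n : ℕ} (k : Fin (n + 1)) (f : MvPolynomial (Fin n ⊕ Fin n) ℂ) :
    MvPolynomial (Fin n ⊕ Fin n) ℂ :=
  (if h : 1 ≤ (k : ℕ) then MvPolynomial.X (Sum.inl ⟨(k : ℕ) - 1, by omega⟩) *
        MvPolynomial.pderiv (Sum.inl ⟨(k : ℕ) - 1, by omega⟩) f else 0)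
    - (if h : (k : ℕ) < n then MvPolynomial.X (Sum.inr ⟨(k : ℕ), h⟩) *
        MvPolynomial.pderiv (Sum.inr ⟨(k : ℕ), h⟩) f else 0)

theorem EE_C {n : ℕ} (k : Fin (n + 1)) (c : ℂ) : EE (n := n) k (MvPolynomial.C c) = 0 := by
  unfold EE
  simp

theorem EE_add {n : ℕ} (k : Fin (n + 1)) (f g : MvPolynomial (Fin n ⊕ Fin n) ℂ) :
    EE k (f + g) = EE k f + EE k g := by
  unfold EE
  split_ifs <;> (try simp only [map_add]) <;> ring

theorem EE_neg {n : ℕ} (k : Fin (n + 1)) (f : MvPolynomial (Fin n ⊕ Fin n) ℂ) :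
    EE k (-f) = -EE k f := by
  unfold EE
  split_ifs <;> (try simp only [map_neg]) <;> ring

theorem EE_mul {n : ℕ} (k : Fin (n + 1)) (f g : MvPolynomial (Fin n ⊕ Fin n) ℂ) :
    EE k (f * g) = f * EE k g + g * EE k f := by
  unfold EE
  split_ifs <;> (try simp only [MvPolynomial.pderiv_mul]) <;> ring

theorem EE_sum {n : ℕ} (k : Fin (n + 1)) {ι : Type} (s : Finset ι)
    (f : ι → MvPolynomial (Fin n ⊕ Fin n) ℂ) :
    EE k (∑ i ∈ s, f i) = ∑ i ∈ s, EE k (f i) := by
  classical
  induction s using Finset.induction_on with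
  | empty =>
    have := EE_C (n := n) k 0
    simpa using this
  | insert a s ha ih => rw [Finset.sum_insert ha, Finset.sum_insert ha, EE_add, ih]

theorem EE_inl {n : ℕ} (k : Fin (n + 1)) (i : Fin n) :
    EE k (MvPolynomial.X (Sum.inl i)) = if k = i.succ then MvPolynomial.X (Sum.inl i) else 0 := by
  unfold EE
  by_cases hk : k = i.succ
  · subst hk
    have h1 : 1 ≤ ((i.succ : Fin (n + 1)) : ℕ) := by simp
    rw [dif_pos h1, if_pos rfl]
    have h2 : (⟨((i.succ : Fin (n + 1)) : ℕ) - 1, by simp⟩ : Fin n) = i := by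
      ext; simp
    have h3 : (if h : ((i.succ : Fin (n + 1)) : ℕ) < n then MvPolynomial.X (Sum.inr ⟨_, h⟩) *
        MvPolynomial.pderiv (Sum.inr ⟨_, h⟩) (MvPolynomial.X (Sum.inl i) :
          MvPolynomial (Fin n ⊕ Fin n) ℂ) else 0) = 0 := by
      split_ifs with h
      · rw [MvPolynomial.pderiv_X_of_ne (by simp), mul_zero]
      · rfl
    rw [h3, sub_zero]
    simp only [Fin.val_succ, Nat.add_sub_cancel, Fin.eta, MvPolynomial.pderiv_X_self, mul_one]
  · rw [if_neg hk]
    have h3 : (if h : (k : ℕ) < n then MvPolynomial.X (Sum.inr ⟨_, h⟩) *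
        MvPolynomial.pderiv (Sum.inr ⟨_, h⟩) (MvPolynomial.X (Sum.inl i) :
          MvPolynomial (Fin n ⊕ Fin n) ℂ) else 0) = 0 := by
      split_ifs with h
      · rw [MvPolynomial.pderiv_X_of_ne (by simp), mul_zero]
      · rfl
    rw [h3, sub_zero]
    split_ifs with h
    · rw [MvPolynomial.pderiv_X_of_ne, mul_zero]
      intro h4
      apply hk
      have h5 := Sum.inl_injective h4
      ext
      have h6 : (i : ℕ) = (k : ℕ) - 1 := congrArg Fin.val h5
      rw [Fin.val_succ]
      omega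
    · rfl

theorem EE_inr {n : ℕ} (k : Fin (n + 1)) (i : Fin n) :
    EE k (MvPolynomial.X (Sum.inr i)) =
      if k = i.castSucc then -MvPolynomial.X (Sum.inr i) else 0 := by
  unfold EE
  have h3 : (if h : 1 ≤ (k : ℕ) then MvPolynomial.X (Sum.inl ⟨(k : ℕ) - 1, by omega⟩) *
        MvPolynomial.pderiv (Sum.inl ⟨(k : ℕ) - 1, by omega⟩) (MvPolynomial.X (Sum.inr i) :
          MvPolynomial (Fin n ⊕ Fin n) ℂ) else 0) = 0 := by
    split_ifs with h
    · rw [MvPolynomial.pderiv_X_of_ne (by simp), mul_zero]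
    · rfl
  rw [h3, zero_sub]
  by_cases hk : k = i.castSucc
  · subst hk
    have h1 : ((i.castSucc : Fin (n + 1)) : ℕ) < n := by simp
    rw [dif_pos h1, if_pos rfl]
    simp only [Fin.val_castSucc, Fin.eta, MvPolynomial.pderiv_X_self, mul_one]
  · rw [if_neg hk]
    split_ifs with h
    · rw [MvPolynomial.pderiv_X_of_ne, mul_zero, neg_zero]
      intro h4
      apply hk
      have h5 := Sum.inr_injective h4
      ext
      have h6 : (i : ℕ) = (k : ℕ) := congrArg Fin.val h5
      rw [Fin.val_castSucc]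
      omega
    · rw [neg_zero]

/-- the linear map with coordinates `c` -/
noncomputable def LL {n : ℕ} (c : Fin (n + 1) → ℂ) : (Fin (n + 1) → ℝ) →L[ℝ] ℂ :=
  ∑ j, (ContinuousLinearMap.proj j : (Fin (n + 1) → ℝ) →L[ℝ] ℝ).smulRight (c j)

theorem LL_apply {n : ℕ} (c : Fin (n + 1) → ℂ) (v : Fin (n + 1) → ℝ) :
    LL c v = ∑ j, (v j : ℂ) * c j := by
  unfold LL
  simp [ContinuousLinearMap.sum_apply]

theorem LL_single {n : ℕ} (c : Fin (n + 1) → ℂ) (k : Fin (n + 1)) :
    LL c (Pi.single k 1) = c k := by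
  rw [LL_apply, Finset.sum_eq_single k]
  · simp
  · intro j _ hj
    rw [Pi.single_eq_of_ne hj]
    simp
  · intro h
    exact absurd (Finset.mem_univ k) h

theorem hasFDerivAt_rs {n : ℕ} (t : Fin n → ℝ) (i : Fin n ⊕ Fin n) (x : Fin (n + 1) → ℝ) :
    HasFDerivAt (fun x => rs x t i)
      (LL fun j => 2 * MvPolynomial.eval (rs x t) (EE j (MvPolynomial.X i))) x := by
  rcases i with i | i
  · have h0 : HasFDerivAt (fun x : Fin (n + 1) → ℝ => x i.succ)
        (ContinuousLinearMap.proj i.succ : (Fin (n + 1) → ℝ) →L[ℝ] ℝ) x :=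
      (ContinuousLinearMap.proj i.succ : (Fin (n + 1) → ℝ) →L[ℝ] ℝ).hasFDerivAt
    have h1 := Complex.ofRealCLM.hasFDerivAt.comp x
      ((((h0.sub_const (t i)).const_mul 2).exp).const_mul Real.pi)
    refine HasFDerivAt.congr_fderiv h1 ?_
    ext v
    rw [LL_apply, Finset.sum_eq_single i.succ]
    · rw [EE_inl, if_pos rfl, MvPolynomial.eval_X]
      simp only [rs]
      simp
      ring
    · intro j _ hj
      rw [EE_inl, if_neg hj]
      simp
    · intro h
      exact absurd (Finset.mem_univ _) h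
  · have h0 : HasFDerivAt (fun x : Fin (n + 1) → ℝ => x i.castSucc)
        (ContinuousLinearMap.proj i.castSucc : (Fin (n + 1) → ℝ) →L[ℝ] ℝ) x :=
      (ContinuousLinearMap.proj i.castSucc : (Fin (n + 1) → ℝ) →L[ℝ] ℝ).hasFDerivAt
    have h1 := Complex.ofRealCLM.hasFDerivAt.comp x
      ((((h0.const_sub (t i)).const_mul 2).exp).const_mul Real.pi)
    refine HasFDerivAt.congr_fderiv h1 ?_
    ext v
    rw [LL_apply, Finset.sum_eq_single i.castSucc]
    · rw [EE_inr, if_pos rfl, map_neg, MvPolynomial.eval_X]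
      simp only [rs]
      simp
      ring
    · intro j _ hj
      rw [EE_inr, if_neg hj]
      simp
    · intro h
      exact absurd (Finset.mem_univ _) h

theorem hasFDerivAt_eval {n : ℕ} (t : Fin n → ℝ) (f : MvPolynomial (Fin n ⊕ Fin n) ℂ)
    (x : Fin (n + 1) → ℝ) :
    HasFDerivAt (fun x => MvPolynomial.eval (rs x t) f)
      (LL fun j => 2 * MvPolynomial.eval (rs x t) (EE j f)) x := by
  induction f using MvPolynomial.induction_on with
  | C c =>
    simp only [MvPolynomial.eval_C]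
    refine (hasFDerivAt_const c x).congr_fderiv ?_
    ext v
    rw [LL_apply]
    simp [EE_C]
  | add f g hf hg =>
    simp only [map_add]
    refine (hf.add hg).congr_fderiv ?_
    ext v
    simp only [ContinuousLinearMap.add_apply, LL_apply, EE_add, map_add, ← Finset.sum_add_distrib]
    apply Finset.sum_congr rfl
    intro j _
    ring
  | mul_X f i hf =>
    simp only [map_mul, MvPolynomial.eval_X]
    refine (hf.mul (hasFDerivAt_rs t i x)).congr_fderiv ?_
    ext v
    simp only [ContinuousLinearMap.add_apply, ContinuousLinearMap.smul_apply, LL_apply, EE_mul,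
      map_add, map_mul, MvPolynomial.eval_X, smul_eq_mul, Finset.mul_sum,
      ← Finset.sum_add_distrib]
    apply Finset.sum_congr rfl
    intro j _
    ring

/-- the polynomial in the exponent -/
noncomputable def p0 (n : ℕ) : MvPolynomial (Fin n ⊕ Fin n) ℂ :=
  ∑ k : Fin n, (MvPolynomial.X (Sum.inl k) + MvPolynomial.X (Sum.inr k))

theorem Qk_eq {n : ℕ} (a : ℂ) (x : Fin (n + 1) → ℝ) (t : Fin n → ℝ) :
    Qk a x t = Complex.exp (a * ((∑ i, x i - ∑ i, t i : ℝ) : ℂ)
      - MvPolynomial.eval (rs x t) (p0 n)) := by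
  unfold Qk
  rw [Complex.ofReal_exp, ← Complex.exp_add]
  congr 1
  have h1 : MvPolynomial.eval (rs x t) (p0 n) = ((Real.pi * ∑ k : Fin n,
      (Real.exp (2 * (x k.succ - t k)) + Real.exp (2 * (t k - x k.castSucc))) : ℝ) : ℂ) := by
    unfold p0
    rw [map_sum, Finset.mul_sum, Complex.ofReal_sum]
    apply Finset.sum_congr rfl
    intro k _
    rw [map_add, MvPolynomial.eval_X, MvPolynomial.eval_X]
    simp only [rs]
    push_cast
    ring
  rw [h1]
  push_cast
  ring

theorem EE_p0 {n : ℕ} (k : Fin (n + 1)) : EE k (p0 n) = rho n k - sig n (k + 1) := by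
  unfold p0
  rw [EE_sum]
  simp only [EE_add, EE_inl, EE_inr, Finset.sum_add_distrib]
  have h1 : ∑ i : Fin n, (if k = i.succ then (MvPolynomial.X (Sum.inl i) :
      MvPolynomial (Fin n ⊕ Fin n) ℂ) else 0) = rho n k := by
    unfold rho
    split_ifs with h
    · rw [Finset.sum_eq_single (⟨(k : ℕ) - 1, by omega⟩ : Fin n)]
      · rw [if_pos]
        ext
        simp only [Fin.succ_mk]
        omega
      · intro j _ hj
        rw [if_neg]
        intro h2
        apply hj
        ext
        have := congrArg Fin.val h2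
        rw [Fin.val_succ] at this
        simp only
        omega
      · intro h2
        exact absurd (Finset.mem_univ _) h2
    · apply Finset.sum_eq_zero
      intro j _
      rw [if_neg]
      intro h2
      apply h
      have := congrArg Fin.val h2
      rw [Fin.val_succ] at this
      have hj := j.2
      omega
  have h2 : ∑ i : Fin n, (if k = i.castSucc then -(MvPolynomial.X (Sum.inr i) :
      MvPolynomial (Fin n ⊕ Fin n) ℂ) else 0) = -sig n (k + 1) := by
    unfold sig
    split_ifs with h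
    · rw [Finset.sum_eq_single (⟨(k : ℕ), by omega⟩ : Fin n)]
      · rw [if_pos]
        · simp
        · ext
          simp
      · intro j _ hj
        rw [if_neg]
        intro h2
        apply hj
        ext
        have := congrArg Fin.val h2
        rw [Fin.val_castSucc] at this
        simp only
        omega
      · intro h2
        exact absurd (Finset.mem_univ _) h2
    · rw [neg_zero]
      apply Finset.sum_eq_zero
      intro j _
      rw [if_neg]
      intro h2
      apply h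
      have := congrArg Fin.val h2
      rw [Fin.val_castSucc] at this
      have hj := j.2
      omega
  rw [h1, h2, sub_eq_add_neg]

theorem dX_eq {n : ℕ} (a : ℂ) (k : Fin (n + 1)) (f : MvPolynomial (Fin n ⊕ Fin n) ℂ) :
    dX a k f = (MvPolynomial.C a - EE k (p0 n)) * f + EE k f := by
  rw [EE_p0]
  unfold dX EE
  ring

theorem hasFDerivAt_Qk {n : ℕ} (a : ℂ) (t : Fin n → ℝ) (x : Fin (n + 1) → ℝ) :
    HasFDerivAt (fun x => Qk (2 * a) x t)
      (LL fun j => 2 * MvPolynomial.eval (rs x t) (MvPolynomial.C a - EE j (p0 n)) *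
        Qk (2 * a) x t) x := by
  have h0 : ∀ j : Fin (n + 1), HasFDerivAt (fun x : Fin (n + 1) → ℝ => x j)
      (ContinuousLinearMap.proj j : (Fin (n + 1) → ℝ) →L[ℝ] ℝ) x := fun j =>
    (ContinuousLinearMap.proj j : (Fin (n + 1) → ℝ) →L[ℝ] ℝ).hasFDerivAt
  have h1 : HasFDerivAt (fun x : Fin (n + 1) → ℝ => ∑ j, x j)
      (∑ j, (ContinuousLinearMap.proj j : (Fin (n + 1) → ℝ) →L[ℝ] ℝ)) x :=
    HasFDerivAt.fun_sum fun j _ => h0 j
  have h2 := ((Complex.ofRealCLM.hasFDerivAt.comp x (h1.sub_const (∑ i, t i))).const_mul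
    (2 * a)).sub
    (hasFDerivAt_eval t (p0 n) x)
  have h3 : HasFDerivAt (fun x : Fin (n + 1) → ℝ => Complex.exp ((2 * a) *
      ((∑ i, x i - ∑ i, t i : ℝ) : ℂ) - MvPolynomial.eval (rs x t) (p0 n)))
      (Complex.exp ((2 * a) * ((∑ i, x i - ∑ i, t i : ℝ) : ℂ) -
        MvPolynomial.eval (rs x t) (p0 n)) • ((2 * a) • Complex.ofRealCLM.comp
          (∑ j, (ContinuousLinearMap.proj j : (Fin (n + 1) → ℝ) →L[ℝ] ℝ)) -
        LL fun j => 2 * MvPolynomial.eval (rs x t) (EE j (p0 n)))) x := h2.cexp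
  have e : (fun x => Qk (2 * a) x t) = fun x => Complex.exp ((2 * a) *
      ((∑ i, x i - ∑ i, t i : ℝ) : ℂ) - MvPolynomial.eval (rs x t) (p0 n)) :=
    funext fun x => Qk_eq _ _ _
  rw [e]
  refine HasFDerivAt.congr_fderiv h3 ?_
  rw [Qk_eq]
  ext v
  simp only [ContinuousLinearMap.smul_apply, ContinuousLinearMap.sub_apply, LL_apply,
    ContinuousLinearMap.comp_apply, ContinuousLinearMap.sum_apply, smul_eq_mul]
  simp only [map_sub, MvPolynomial.eval_C, ContinuousLinearMap.proj_apply,
    Complex.ofRealCLM_apply, Complex.ofReal_sum, Finset.mul_sum, ← Finset.sum_sub_distrib]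
  apply Finset.sum_congr rfl
  intro j _
  ring

theorem hasFDerivAt_G {n : ℕ} (a : ℂ) (t : Fin n → ℝ) (f : MvPolynomial (Fin n ⊕ Fin n) ℂ)
    (h : ℂ) (x : Fin (n + 1) → ℝ) :
    HasFDerivAt (fun x => MvPolynomial.eval (rs x t) f * Qk (2 * a) x t * h)
      (LL fun j => 2 * (MvPolynomial.eval (rs x t) (dX a j f) * Qk (2 * a) x t * h)) x := by
  have h1 := ((hasFDerivAt_eval t f x).mul (hasFDerivAt_Qk a t x)).mul_const h
  refine HasFDerivAt.congr_fderiv h1 ?_
  ext v
  simp only [ContinuousLinearMap.add_apply, ContinuousLinearMap.smul_apply, LL_apply,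
    smul_eq_mul, Finset.mul_sum, ← Finset.sum_add_distrib, dX_eq, map_add, map_mul]
  apply Finset.sum_congr rfl
  intro j _
  ring

theorem norm_LL_le {n : ℕ} (c : Fin (n + 1) → ℂ) : ‖LL c‖ ≤ ∑ j, ‖c j‖ := by
  apply ContinuousLinearMap.opNorm_le_bound _ (Finset.sum_nonneg fun j _ => norm_nonneg _)
  intro v
  rw [LL_apply, Finset.sum_mul]
  refine (norm_sum_le _ _).trans ?_
  apply Finset.sum_le_sum
  intro j _
  rw [norm_mul, Complex.norm_real, mul_comm]
  exact mul_le_mul_of_nonneg_left (norm_le_pi_norm v j) (norm_nonneg _)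

theorem LL_eq {n : ℕ} (c : Fin (n + 1) → ℂ) :
    LL c = ∑ j, ContinuousLinearMap.smulRightL ℝ (Fin (n + 1) → ℝ) ℂ
      (ContinuousLinearMap.proj j) (c j) := by
  unfold LL
  rfl

theorem integral_LL {n : ℕ} (c : Fin (n + 1) → (Fin n → ℝ) → ℂ) (hc : ∀ j, Integrable (c j)) :
    ∫ t, LL (fun j => c j t) = LL fun j => ∫ t, c j t := by
  simp only [LL_eq]
  rw [integral_finset_sum]
  · apply Finset.sum_congr rfl
    intro j _
    exact ContinuousLinearMap.integral_comp_comm _ (hc j)
  · intro j _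
    exact ContinuousLinearMap.integrable_comp _ (hc j)

theorem meas_LL {n : ℕ} (c : Fin (n + 1) → (Fin n → ℝ) → ℂ) (hc : ∀ j, Integrable (c j)) :
    AEStronglyMeasurable (fun t => LL (fun j => c j t)) volume := by
  have hLL : Continuous (fun c : Fin (n + 1) → ℂ => LL c) := by
    simp only [LL_eq]
    exact continuous_finset_sum _ fun j _ =>
      (ContinuousLinearMap.continuous _).comp (continuous_apply j)
  have hm : AEMeasurable (fun t => fun j => c j t) volume :=
    aemeasurable_pi_lambda _ fun j => (hc j).aestronglyMeasurable.aemeasurable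
  exact hLL.comp_aestronglyMeasurable hm.aestronglyMeasurable

theorem hasFDerivAt_KK (h1 : S_KKI) (h2 : S_KKI2) {n : ℕ} (a : ℂ) (H : (Fin n → ℝ) → ℂ)
    (hc : Continuous H) (hg : ExpGr H) (f : MvPolynomial (Fin n ⊕ Fin n) ℂ)
    (x : Fin (n + 1) → ℝ) :
    HasFDerivAt (KK a H f) (LL fun j => 2 * KK a H (dX a j f) x) x := by
  have hI : ∀ (f : MvPolynomial (Fin n ⊕ Fin n) ℂ) (x : Fin (n + 1) → ℝ),
      Integrable (fun t : Fin n → ℝ => MvPolynomial.eval (rs x t) f * Qk (2 * a) x t * H t) :=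
    fun f x => (h1 n a H f hc hg).1 x
  choose g hgi hgb using fun j => h2 n a H (dX a j f) hc hg (‖x‖ + 1)
  have key := hasFDerivAt_integral_of_dominated_of_fderiv_le (𝕜 := ℝ) (μ := volume)
    (F := fun x t => MvPolynomial.eval (rs x t) f * Qk (2 * a) x t * H t)
    (F' := fun x t => LL fun j => 2 * (MvPolynomial.eval (rs x t) (dX a j f) *
      Qk (2 * a) x t * H t)) (x₀ := x) (s := Metric.ball x 1)
    (bound := fun t => ∑ j, 2 * g j t) (Metric.ball_mem_nhds x one_pos)
    (Eventually.of_forall fun x => (hI f x).aestronglyMeasurable) (hI f x)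
    (meas_LL _ fun j => (hI (dX a j f) x).const_mul 2) ?_ ?_ ?_
  · rw [integral_LL _ fun j => (hI (dX a j f) x).const_mul 2] at key
    refine HasFDerivAt.congr_fderiv key ?_
    congr 1
    funext j
    rw [integral_const_mul]
    rfl
  · refine Eventually.of_forall fun t y hy => ?_
    refine (norm_LL_le _).trans (Finset.sum_le_sum fun j _ => ?_)
    rw [norm_mul]
    have h3 : ‖(2 : ℂ)‖ = 2 := by norm_num
    rw [h3]
    apply mul_le_mul_of_nonneg_left _ (by norm_num)
    apply hgb j y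
    intro i
    have h4 : ‖y‖ ≤ ‖x‖ + 1 := by
      have h5 : ‖y - x‖ < 1 := by rwa [← dist_eq_norm]
      have h6 : ‖y‖ ≤ ‖x‖ + ‖y - x‖ := by
        have := norm_add_le x (y - x)
        rwa [add_sub_cancel] at this
      linarith
    exact (norm_le_pi_norm y i).trans h4
  · exact integrable_finset_sum _ fun j _ => (hgi j).const_mul 2
  · exact Eventually.of_forall fun t y _ => hasFDerivAt_G a t f (H t) y

theorem contDiff_nat (h1 : S_KKI) (h2 : S_KKI2) {n : ℕ} (a : ℂ) (H : (Fin n → ℝ) → ℂ)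
    (hc : Continuous H) (hg : ExpGr H) (m : ℕ) :
    ∀ f : MvPolynomial (Fin n ⊕ Fin n) ℂ, ContDiff ℝ m (KK a H f) := by
  induction m with
  | zero =>
    intro f
    apply contDiff_zero.2
    exact (show Differentiable ℝ (KK a H f) from
      fun x => (hasFDerivAt_KK h1 h2 a H hc hg f x).differentiableAt).continuous
  | succ m ih =>
    intro f
    have e : (((m + 1 : ℕ) : ℕ) : WithTop ℕ∞) = (m : WithTop ℕ∞) + 1 := by push_cast; rfl
    rw [e, contDiff_succ_iff_fderiv]
    refine ⟨fun x => (hasFDerivAt_KK h1 h2 a H hc hg f x).differentiableAt, ?_, ?_⟩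
    · intro h
      exact absurd h (by simp)
    · have h3 : fderiv ℝ (KK a H f) = fun x => LL fun j => 2 * KK a H (dX a j f) x :=
        funext fun x => (hasFDerivAt_KK h1 h2 a H hc hg f x).fderiv
      rw [h3]
      simp only [LL_eq]
      apply ContDiff.sum
      intro j _
      exact (ContinuousLinearMap.contDiff _).comp (contDiff_const.mul (ih _))

theorem KK_two {n : ℕ} (a : ℂ) (H : (Fin n → ℝ) → ℂ) (f : MvPolynomial (Fin n ⊕ Fin n) ℂ)
    (x : Fin (n + 1) → ℝ) : 2 * KK a H f x = KK a H (MvPolynomial.C 2 * f) x := by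
  unfold KK
  rw [← integral_const_mul]
  congr 1
  funext t
  rw [map_mul, MvPolynomial.eval_C]
  ring

theorem t_kkd : S_KKI → S_KKI2 → S_KKD := by
  intro h1 h2 n a H hc hg f
  have hpd : ∀ (f : MvPolynomial (Fin n ⊕ Fin n) ℂ) (k : Fin (n + 1)) (x : Fin (n + 1) → ℝ),
      pd k (KK a H f) x = 2 * KK a H (dX a k f) x := by
    intro f k x
    unfold pd
    rw [(hasFDerivAt_KK h1 h2 a H hc hg f x).fderiv, LL_single]
  refine ⟨⟨?_, ?_⟩, hpd f⟩
  · rw [contDiff_infty]
    exact fun m => contDiff_nat h1 h2 a H hc hg m f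
  · intro l
    have h3 : ∃ f', l.foldr pd (KK a H f) = KK a H f' := by
      induction l with
      | nil => exact ⟨f, rfl⟩
      | cons k l ih =>
        obtain ⟨f', hf'⟩ := ih
        refine ⟨MvPolynomial.C 2 * dX a k f', ?_⟩
        rw [List.foldr_cons, hf']
        funext x
        rw [hpd, KK_two]
    obtain ⟨f', hf'⟩ := h3
    rw [hf']
    exact (h1 n a H f' hc hg).2

end Pool.Agent.W191.WH.KKD
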