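import Pool.Agent.W181.WH.Stm

/-! Project WH, part SYM. -/

set_option autoImplicit false

namespace Pool.Agent.W191.WH.SYM

open Pool.Agent.W181.WH MvPolynomial

/-- the product in the polynomial ring -/
noncomputable def P1 (n k : ℕ) : MvPolynomial (Option (Fin n)) ℂ :=
  ∏ J ∈ Finset.powersetCard k (Finset.univ : Finset (Fin n)), (X none - ∑ j ∈ J, X (some j))

/-- the product over the base ring `ℂ[z]` -/
noncomputable def P2 (n k : ℕ) : MvPolynomial (Fin n) (Polynomial ℂ) :=
  ∏ J ∈ Finset.powersetCard k (Finset.univ : Finset (Fin n)), (C Polynomial.X - ∑ j ∈ J, X j)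

/-- the substitution -/
noncomputable def ps (n : ℕ) : MvPolynomial (Option (Fin n)) ℂ →ₐ[ℂ]
    MvPolynomial (Option (Fin n)) ℂ :=
  aeval (fun o : Option (Fin n) => o.elim (X none)
    (fun i => es (fun j : Fin n => (X (some j) : MvPolynomial (Option (Fin n)) ℂ)) ((i : ℕ) + 1)))

theorem P2_symm (n k : ℕ) : (P2 n k).IsSymmetric := by
  intro e
  unfold P2
  rw [map_prod]
  have h1 : Finset.powersetCard k (Finset.univ : Finset (Fin n)) =
      (Finset.powersetCard k (Finset.univ : Finset (Fin n))).map
        (Finset.mapEmbedding e.toEmbedding).toEmbedding := by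
    rw [← Finset.powersetCard_map, Finset.map_univ_equiv]
  conv_rhs => rw [h1, Finset.prod_map]
  apply Finset.prod_congr rfl
  intro J _
  rw [map_sub, map_sum, rename_C]
  congr 1
  change _ = ∑ j ∈ J.map e.toEmbedding, X j
  rw [Finset.sum_map]
  apply Finset.sum_congr rfl
  intro j _
  rw [rename_X]
  rfl

theorem E_P1 (n k : ℕ) : optionEquivRight ℂ (Fin n) (P1 n k) = P2 n k := by
  unfold P1 P2
  rw [map_prod]
  apply Finset.prod_congr rfl
  intro J _
  rw [map_sub, map_sum, optionEquivRight_X_none]
  congr 1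
  apply Finset.sum_congr rfl
  intro j _
  rw [optionEquivRight_X_some]

theorem exists_g (n k : ℕ) : ∃ g : MvPolynomial (Option (Fin n)) ℂ, ps n g = P1 n k := by
  obtain ⟨h, hh⟩ := esymmAlgHom_surjective (σ := Fin n) (R := Polynomial ℂ) (n := n) (by simp)
    ⟨P2 n k, P2_symm n k⟩
  have h1 : aeval (fun i : Fin n => esymm (Fin n) (Polynomial ℂ) ((i : ℕ) + 1)) h = P2 n k := by
    rw [← esymmAlgHom_apply, hh]
  refine ⟨(optionEquivRight ℂ (Fin n)).symm h, ?_⟩
  apply (optionEquivRight ℂ (Fin n)).injective
  rw [E_P1, ← h1]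
  have key : ((optionEquivRight ℂ (Fin n) : MvPolynomial (Option (Fin n)) ℂ ≃ₐ[ℂ]
      MvPolynomial (Fin n) (Polynomial ℂ)).toAlgHom.comp (ps n)) =
      ((aeval (fun i : Fin n => esymm (Fin n) (Polynomial ℂ) ((i : ℕ) + 1)) :
        MvPolynomial (Fin n) (Polynomial ℂ) →ₐ[Polynomial ℂ]
          MvPolynomial (Fin n) (Polynomial ℂ)).restrictScalars ℂ).comp
        (optionEquivRight ℂ (Fin n)).toAlgHom := by
    apply MvPolynomial.algHom_ext
    intro o
    rcases o with _ | i
    · simp only [AlgHom.comp_apply, ps, aeval_X, Option.elim]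
      change optionEquivRight ℂ (Fin n) (X none) = aeval _ (optionEquivRight ℂ (Fin n) (X none))
      rw [optionEquivRight_X_none, aeval_C]
      rfl
    · simp only [AlgHom.comp_apply, ps, aeval_X, Option.elim]
      change optionEquivRight ℂ (Fin n) (es _ _) = aeval _ (optionEquivRight ℂ (Fin n) (X (some i)))
      rw [optionEquivRight_X_some, aeval_X]
      unfold es esymm
      rw [map_sum]
      apply Finset.sum_congr rfl
      intro J _
      rw [map_prod]
      apply Finset.prod_congr rfl
      intro j _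
      rw [optionEquivRight_X_some]
  have h2 := congrArg (fun φ => φ ((optionEquivRight ℂ (Fin n)).symm h)) key
  simp only [AlgHom.comp_apply] at h2
  have h3 : (optionEquivRight ℂ (Fin n)).toAlgHom ((optionEquivRight ℂ (Fin n)).symm h) = h :=
    (optionEquivRight ℂ (Fin n)).apply_symm_apply h
  rw [h3] at h2
  exact h2

/-- the weight -/
def wt {n : ℕ} (d : Option (Fin n) →₀ ℕ) : ℕ := d none + ∑ i : Fin n, ((i : ℕ) + 1) * d (some i)

theorem es_homog (n i : ℕ) : (es (fun j : Fin n =>
    (X (some j) : MvPolynomial (Option (Fin n)) ℂ)) i).IsHomogeneous i := by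
  unfold es
  apply IsHomogeneous.sum
  intro J hJ
  have h1 : (∏ j ∈ J, (X (some j) : MvPolynomial (Option (Fin n)) ℂ)).IsHomogeneous
      (∑ j ∈ J, 1) := IsHomogeneous.prod J _ _ fun j _ => isHomogeneous_X ℂ (some j)
  rw [Finset.sum_const, (Finset.mem_powersetCard.1 hJ).2, smul_eq_mul, mul_one] at h1
  exact h1

theorem P1_homog (n k : ℕ) : (P1 n k).IsHomogeneous (n.choose k) := by
  unfold P1
  have h1 := IsHomogeneous.prod (Finset.powersetCard k (Finset.univ : Finset (Fin n)))
    (fun J => (X none - ∑ j ∈ J, X (some j) : MvPolynomial (Option (Fin n)) ℂ)) (fun _ => 1)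
    (fun J _ => (isHomogeneous_X ℂ none).sub
      (IsHomogeneous.sum _ _ _ fun j _ => isHomogeneous_X ℂ (some j)))
  rw [Finset.sum_const, Finset.card_powersetCard, Finset.card_univ, Fintype.card_fin,
    smul_eq_mul, mul_one] at h1
  exact h1

theorem ps_mon {n : ℕ} (d : Option (Fin n) →₀ ℕ) (c : ℂ) :
    (ps n (monomial d c)).IsHomogeneous (wt d) := by
  unfold ps
  rw [aeval_monomial, Finsupp.prod_fintype _ _ (fun _ => pow_zero _), Fintype.prod_option]
  have h1 : ((X none : MvPolynomial (Option (Fin n)) ℂ) ^ (d none)).IsHomogeneous (1 * d none) :=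
    (isHomogeneous_X ℂ none).pow _
  have h2 := IsHomogeneous.prod (Finset.univ : Finset (Fin n))
    (fun i => (es (fun j : Fin n => (X (some j) : MvPolynomial (Option (Fin n)) ℂ))
      ((i : ℕ) + 1)) ^ (d (some i))) (fun i => ((i : ℕ) + 1) * d (some i))
    (fun i _ => (es_homog n ((i : ℕ) + 1)).pow _)
  have h3 := (h1.mul h2).C_mul c
  rw [one_mul] at h3
  exact h3

theorem t_sym : S_SYM := by
  intro n k
  obtain ⟨g, hg⟩ := exists_g n k
  let N := n.choose k
  let g0 : MvPolynomial (Option (Fin n)) ℂ :=
    ∑ d ∈ g.support.filter (fun d => wt d = N), monomial d (coeff d g)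
  have hsupp : ∀ d ∈ g0.support, wt d = N := by
    intro d hd
    by_contra hne
    apply (mem_support_iff.1 hd)
    change coeff d (∑ d ∈ g.support.filter (fun d => wt d = N), monomial d (coeff d g)) = 0
    rw [coeff_sum]
    apply Finset.sum_eq_zero
    intro e he
    rw [coeff_monomial, if_neg]
    rintro rfl
    exact hne (Finset.mem_filter.1 he).2
  have hps : ps n g0 = P1 n k := by
    have h1 : homogeneousComponent N (ps n g) = ps n g0 := by
      conv_lhs => rw [g.as_sum, map_sum, map_sum]
      change _ = ps n (∑ d ∈ g.support.filter (fun d => wt d = N), monomial d (coeff d g))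
      rw [map_sum, Finset.sum_filter]
      apply Finset.sum_congr rfl
      intro d _
      rw [homogeneousComponent_of_mem ((mem_homogeneousSubmodule _ _).2 (ps_mon d (coeff d g)))]
      by_cases h : wt d = N
      · rw [if_pos h.symm, if_pos h]
      · rw [if_neg (fun h' => h h'.symm), if_neg h]
    rw [← h1, hg, homogeneousComponent_of_mem ((mem_homogeneousSubmodule _ _).2 (P1_homog n k)),
      if_pos rfl]
  refine ⟨g0, fun d hd => (hsupp d hd).le, ?_⟩
  intro A _ _ z α
  have h1 := congrArg (aeval (fun o : Option (Fin n) => o.elim z α)) hps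
  have h2 : aeval (fun o : Option (Fin n) => o.elim z α) (ps n g0) =
      aeval (fun o : Option (Fin n) => o.elim z (fun i => es α ((i : ℕ) + 1))) g0 := by
    have h3 : (aeval (fun o : Option (Fin n) => o.elim z α) :
        MvPolynomial (Option (Fin n)) ℂ →ₐ[ℂ] A).comp (ps n) =
        aeval (fun o : Option (Fin n) => o.elim z (fun i => es α ((i : ℕ) + 1))) := by
      apply MvPolynomial.algHom_ext
      intro o
      rcases o with _ | i
      · simp [ps]
      · simp only [AlgHom.comp_apply, ps, aeval_X, Option.elim]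
        unfold es
        rw [map_sum]
        apply Finset.sum_congr rfl
        intro J _
        rw [map_prod]
        apply Finset.prod_congr rfl
        intro j _
        rw [aeval_X]
    rw [← h3]
    rfl
  rw [← h2, h1]
  unfold P1
  rw [map_prod]
  apply Finset.prod_congr rfl
  intro J _
  rw [map_sub, map_sum, aeval_X]
  congr 1
  apply Finset.sum_congr rfl
  intro j _
  rw [aeval_X]
  rfl

end Pool.Agent.W191.WH.SYM
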